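import Mathlib
import Pool.Agent.H76.R45.ExpAbs

set_option autoImplicit false
open Finset

/-! # Expansion of a weighted sum with several kinds of small weights

Three disjoint sets of labels: `C` (kept explicitly), `A` (weight `lam (kd e)`), `Bk` (weight `1/2`). -/

namespace Pool.Agent.H76.Sp

open Pool.Agent.Q1 Pool.Agent.Q1.M6b.Gd Pool.Agent.H76.R45

variable {α : Type*} [DecidableEq α] {K : Type*} [Fintype K] [DecidableEq K]

/-- general small weights -/
lemma Ec_small' (lam : α → ℂ) (A : Finset α) (F : Finset α → ℂ) :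
    Ec lam A F = ∑ v ∈ A.powerset, (∏ e ∈ v, lam e) * alt v F := by
  have h := Ec_expand (fun _ => (0 : ℂ)) lam A F
  have e : (fun e : α => (fun _ => (0 : ℂ)) e + lam e) = lam := by
    funext x; simp
  rw [e] at h
  rw [h]
  refine sum_congr rfl fun w _ => ?_
  rw [Ec_zero]
  congr 2
  funext T
  rw [empty_union]

/-- the subsets of `A` with `l k` elements of the kind `k`, for every `k` -/
def PK (A : Finset α) (kd : α → K) (l : K → ℕ) : Finset (Finset α) :=
  A.powerset.filter fun v => ∀ k, (v.filter fun e => kd e = k).card = l k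

lemma mem_PK {A : Finset α} {kd : α → K} {l : K → ℕ} {v : Finset α} :
    v ∈ PK A kd l ↔ v ⊆ A ∧ ∀ k, (v.filter fun e => kd e = k).card = l k := by
  unfold PK
  rw [mem_filter, mem_powerset]

lemma sum_kinds (v : Finset α) (kd : α → K) :
    ∑ k : K, (v.filter fun e => kd e = k).card = v.card := by
  rw [card_eq_sum_card_fiberwise (s := v) (t := (univ : Finset K)) (f := kd)
    (fun x _ => mem_coe.2 (mem_univ _))]

lemma PK_sub (A : Finset α) (kd : α → K) (l : K → ℕ) :
    PK A kd l ⊆ powersetCard (∑ k, l k) A := by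
  intro v hv
  obtain ⟨h1, h2⟩ := mem_PK.1 hv
  rw [mem_powersetCard]
  refine ⟨h1, ?_⟩
  rw [← sum_kinds v kd]
  exact sum_congr rfl fun k _ => h2 k

lemma PK_empty {A : Finset α} {kd : α → K} {l : K → ℕ} {k : K} (h : A.card < l k) :
    PK A kd l = ∅ := by
  rw [eq_empty_iff_forall_notMem]
  intro v hv
  obtain ⟨h1, h2⟩ := mem_PK.1 hv
  have h3 := h2 k
  have h4 : (v.filter fun e => kd e = k).card ≤ A.card :=
    card_le_card ((filter_subset _ _).trans h1)
  omega

lemma prod_kinds (v : Finset α) (kd : α → K) (lam : K → ℂ) :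
    ∏ e ∈ v, lam (kd e) = ∏ k : K, lam k ^ (v.filter fun e => kd e = k).card := by
  rw [← prod_fiberwise_of_maps_to (s := v) (t := (univ : Finset K)) (g := kd)
    (fun x _ => mem_univ _)]
  refine prod_congr rfl fun k _ => ?_
  rw [prod_congr rfl (fun e he => by rw [(mem_filter.1 he).2]), prod_const]

/-- the indices -/
def IL (K : Type*) [Fintype K] [DecidableEq K] (n : ℕ) : Finset (K → ℕ) :=
  Fintype.piFinset fun _ => range n

lemma mem_IL {n : ℕ} {l : K → ℕ} : l ∈ IL K n ↔ ∀ k, l k < n := by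
  unfold IL
  rw [Fintype.mem_piFinset]
  exact forall_congr' fun k => mem_range

lemma IL_mono {n n' : ℕ} (h : n ≤ n') : IL K n ⊆ IL K n' := by
  intro l hl
  rw [mem_IL] at hl ⊢
  exact fun k => (hl k).trans_le h

/-- the subsets sorted by their numbers of elements of every kind -/
theorem sum_PK (A : Finset α) (kd : α → K) (f : Finset α → ℂ) :
    ∑ v ∈ A.powerset, f v = ∑ l ∈ IL K (A.card + 1), ∑ v ∈ PK A kd l, f v := by
  have h1 : ∀ v ∈ A.powerset, (fun k => (v.filter fun e => kd e = k).card) ∈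
      IL K (A.card + 1) := by
    intro v hv
    rw [mem_IL]
    intro k
    have : (v.filter fun e => kd e = k).card ≤ A.card :=
      card_le_card ((filter_subset _ _).trans (mem_powerset.1 hv))
    show (v.filter fun e => kd e = k).card < A.card + 1
    omega
  rw [← sum_fiberwise_of_maps_to h1]
  refine sum_congr rfl fun l _ => sum_congr ?_ fun _ _ => rfl
  unfold PK
  ext v
  rw [mem_filter, mem_filter]
  refine and_congr_right fun _ => ?_
  exact funext_iff

/-- **The expansion**, several kinds of small weights. -/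
theorem expandK {q : α → ℂ} {C A Bk : Finset α} {kd : α → K} {lam : K → ℂ}
    (hd1 : Disjoint C (A ∪ Bk)) (hd2 : Disjoint A Bk) (hT : ∀ e ∈ A, q e = lam (kd e))
    (hB : ∀ e ∈ Bk, q e = 1 / 2) (F : Finset α → ℂ) :
    Ec q (C ∪ (A ∪ Bk)) F = ∑ s ∈ C.powerset,
      ((∏ e ∈ s, q e) * ∏ e ∈ C \ s, (1 - q e)) * ∑ l ∈ IL K (A.card + 1),
        (∏ k, lam k ^ l k) *
        ∑ v ∈ PK A kd l, alt v (fun T => Ec (fun _ => (1 / 2 : ℂ)) Bk
          (fun ω => F (ω ∪ T ∪ s))) := by
  rw [Ec_union q hd1, Ec_eq_sum]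
  refine sum_congr rfl fun s _ => ?_
  congr 1
  rw [Ec_union q hd2, Ec_congr_q (q' := fun e => lam (kd e)) hT, Ec_small', sum_PK A kd]
  refine sum_congr rfl fun l _ => ?_
  rw [mul_sum]
  refine sum_congr rfl fun v hv => ?_
  obtain ⟨hv1, hv2⟩ := mem_PK.1 hv
  rw [prod_kinds v kd lam]
  congr 1
  · exact prod_congr rfl fun k _ => by rw [hv2 k]
  refine alt_congr fun T _ => ?_
  rw [Ec_congr_q (q' := fun _ => (1 / 2 : ℂ)) hB]
  refine Ec_congr fun ω _ => ?_
  congr 1
  ext x
  simp only [mem_union]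
  tauto

/-- a polynomial under the sum -/
theorem expandK_poly {q : α → ℂ} {C A Bk : Finset α} {kd : α → K} {lam : K → ℂ}
    (hd1 : Disjoint C (A ∪ Bk)) (hd2 : Disjoint A Bk) (hT : ∀ e ∈ A, q e = lam (kd e))
    (hB : ∀ e ∈ Bk, q e = 1 / 2) (κ : ℂ) (n : ℕ) (G : ℕ → Finset α → ℂ) :
    Ec q (C ∪ (A ∪ Bk)) (fun ω => ∑ m ∈ range n, κ ^ m * G m ω) =
      ∑ m ∈ range n, ∑ l ∈ IL K (A.card + 1), ∑ s ∈ C.powerset,
        κ ^ m * (∏ k, lam k ^ l k) * ((∏ e ∈ s, q e) * ∏ e ∈ C \ s, (1 - q e)) *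
        ∑ v ∈ PK A kd l, alt v (fun T => Ec (fun _ => (1 / 2 : ℂ)) Bk
          (fun ω => G m (ω ∪ T ∪ s))) := by
  rw [Ec_sum]
  refine sum_congr rfl fun m _ => ?_
  rw [Ec_smul, expandK hd1 hd2 hT hB, sum_comm' (t' := C.powerset)
    (s' := fun _ => IL K (A.card + 1)) (by intro x y; tauto), mul_sum]
  refine sum_congr rfl fun s _ => ?_
  rw [mul_sum, mul_sum]
  refine sum_congr rfl fun l _ => ?_
  ring

end Pool.Agent.H76.Sp
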