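import Mathlib
import Pool.Agent.H30.Mid.Row
import Pool.Agent.H76.Sp.ExpK

namespace Pool.Agent.H33.Q1
end Pool.Agent.H33.Q1

set_option autoImplicit false
open Finset

/-! # Expansion of a weighted sum, cut states

As `ExpK.lean`, `RowK.lean`, but the elements of a set `Fr` of small weights have the weight `1 - lam`: the
expansion is over the sets `T` of the cut elements, `st T = T ∆ Fr` is the set of the open ones. -/

namespace Pool.Agent.H76.Sp

open Pool.Agent.H75.Perc hiding AR VV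
open Pool.Agent.H75.TwoArm hiding EF
open Pool.Agent.H99.NC
open Pool.Agent.Q1 Pool.Agent.H33.Q1
open Pool.Agent.H81.G1 Pool.Agent.Q1.M6b.Gd Pool.Agent.H76.R45
open Pool.Agent.H30.Mid

section abs

variable {α : Type*} [DecidableEq α] {K : Type*} [Fintype K] [DecidableEq K]

/-- exchange of the states of the elements of `Fr` -/
lemma Ec_flip (q : α → ℂ) (E : Finset α) :
    ∀ {Fr : Finset α}, Fr ⊆ E → ∀ G : Finset α → ℂ,
      Ec q E G = Ec (fun e => if e ∈ Fr then 1 - q e else q e) E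
        (fun ω => G (symmDiff ω Fr)) := by
  induction E using Finset.induction_on with
  | empty =>
    intro Fr hF G
    rw [subset_empty.1 hF, Ec_empty, Ec_empty]
    congr 1
  | insert e E he ih =>
    intro Fr hF G
    have hF' : Fr.erase e ⊆ E := by
      intro x hx
      have h1 := mem_erase.1 hx
      rcases mem_insert.1 (hF h1.2) with h2 | h2
      · exact absurd h2 h1.1
      · exact h2
    have hq : ∀ x ∈ E, (fun x => if x ∈ Fr.erase e then 1 - q x else q x) x =
        (fun x => if x ∈ Fr then 1 - q x else q x) x := by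
      intro x hx
      have hne : x ≠ e := fun h => he (h ▸ hx)
      simp only [mem_erase, ne_eq, hne, not_false_eq_true, true_and]
    have key : ∀ G' : Finset α → ℂ, Ec q E G' =
        Ec (fun x => if x ∈ Fr then 1 - q x else q x) E
          (fun ω => G' (symmDiff ω (Fr.erase e))) := by
      intro G'
      rw [ih hF' G', Ec_congr_q hq]
    rw [Ec_insert _ he, Ec_insert _ he, key, key]
    by_cases h : e ∈ Fr
    · have e1 : ∀ ω, ω ⊆ E → symmDiff (insert e ω) Fr = symmDiff ω (Fr.erase e) := by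
        intro ω hω
        ext x
        simp only [mem_symmDiff, mem_insert, mem_erase]
        by_cases hx : x = e
        · subst hx
          have : x ∉ ω := fun h1 => he (hω h1)
          simp [h, this]
        · simp [hx]
      have e2 : ∀ ω, ω ⊆ E → symmDiff ω Fr = insert e (symmDiff ω (Fr.erase e)) := by
        intro ω hω
        ext x
        simp only [mem_symmDiff, mem_insert, mem_erase]
        by_cases hx : x = e
        · subst hx
          have : x ∉ ω := fun h1 => he (hω h1)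
          simp [h, this]
        · simp [hx]
      rw [if_pos h]
      rw [Ec_congr (F := fun ω => G (symmDiff (insert e ω) Fr))
        (G := fun ω => G (symmDiff ω (Fr.erase e))) (fun ω hω => by rw [e1 ω hω]),
        Ec_congr (F := fun ω => G (symmDiff ω Fr))
        (G := fun ω => G (insert e (symmDiff ω (Fr.erase e)))) (fun ω hω => by rw [e2 ω hω])]
      ring
    · have e0 : Fr.erase e = Fr := erase_eq_of_notMem h
      have e1 : ∀ ω, ω ⊆ E → symmDiff (insert e ω) Fr = insert e (symmDiff ω Fr) := by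
        intro ω hω
        ext x
        simp only [mem_symmDiff, mem_insert]
        by_cases hx : x = e
        · subst hx; simp [h]
        · simp [hx]
      rw [if_neg h, e0]
      rw [Ec_congr (F := fun ω => G (symmDiff (insert e ω) Fr))
        (G := fun ω => G (insert e (symmDiff ω Fr))) (fun ω hω => by rw [e1 ω hω])]

variable {q : α → ℂ} {C A Bk Fr : Finset α} {kd : α → K} {lam : K → ℂ} {st : Finset α → Finset α}

/-- **The expansion** over the sets of the cut elements. -/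
theorem expandT (hFr : Fr ⊆ A) (hst : ∀ T, T ⊆ A → st T = symmDiff T Fr)
    (hd1 : Disjoint C (A ∪ Bk)) (hd2 : Disjoint A Bk) (hT : ∀ e ∈ A, e ∉ Fr → q e = lam (kd e))
    (hT' : ∀ e ∈ Fr, q e = 1 - lam (kd e))
    (hB : ∀ e ∈ Bk, q e = 1 / 2) (F : Finset α → ℂ) :
    Ec q (C ∪ (A ∪ Bk)) F = ∑ s ∈ C.powerset,
      ((∏ e ∈ s, q e) * ∏ e ∈ C \ s, (1 - q e)) * ∑ l ∈ IL K (A.card + 1),
        (∏ k, lam k ^ l k) *
        ∑ v ∈ PK A kd l, alt v (fun T => Ec (fun _ => (1 / 2 : ℂ)) Bk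
          (fun ω => F (ω ∪ st T ∪ s))) := by
  have hnC : ∀ e ∈ C, e ∉ Fr := fun e he h =>
    disjoint_left.1 hd1 he (mem_union_left _ (hFr h))
  have hnB : ∀ e ∈ Bk, e ∉ Fr := fun e he h => disjoint_left.1 hd2 (hFr h) he
  rw [Ec_flip q _ (Fr := Fr) (hFr.trans (subset_union_left.trans subset_union_right)) F,
    expandK (kd := kd) (lam := lam) hd1 hd2 (fun e he => ?_) (fun e he => ?_)]
  · refine sum_congr rfl fun s hs => ?_
    have hs := mem_powerset.1 hs
    congr 1
    · congr 1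
      · exact prod_congr rfl fun e he => if_neg (hnC e (hs he))
      · exact prod_congr rfl fun e he => by simp only [if_neg (hnC e (mem_sdiff.1 he).1)]
    · refine sum_congr rfl fun l _ => ?_
      congr 1
      refine sum_congr rfl fun v hv => ?_
      refine alt_congr fun T hT3 => Ec_congr fun ω hω => ?_
      have hTA : T ⊆ A := hT3.trans (mem_PK.1 hv).1
      congr 1
      rw [hst T hTA]
      ext x
      simp only [mem_symmDiff, mem_union]
      by_cases h1 : x ∈ Fr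
      · have h2 : x ∉ ω := fun h => hnB x (hω h) h1
        have h3 : x ∉ s := fun h => hnC x (hs h) h1
        simp [h1, h2, h3]
      · simp [h1]
  · by_cases h : e ∈ Fr
    · simp only [if_pos h, hT' e h]; ring
    · simp only [if_neg h]; exact hT e he h
  · simp only [if_neg (hnB e he)]; exact hB e he

/-- a polynomial under the sum -/
theorem expandT_poly (hFr : Fr ⊆ A) (hst : ∀ T, T ⊆ A → st T = symmDiff T Fr)
    (hd1 : Disjoint C (A ∪ Bk)) (hd2 : Disjoint A Bk) (hT : ∀ e ∈ A, e ∉ Fr → q e = lam (kd e))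
    (hT' : ∀ e ∈ Fr, q e = 1 - lam (kd e))
    (hB : ∀ e ∈ Bk, q e = 1 / 2) (κ : ℂ) (n : ℕ) (G : ℕ → Finset α → ℂ) :
    Ec q (C ∪ (A ∪ Bk)) (fun ω => ∑ m ∈ range n, κ ^ m * G m ω) =
      ∑ m ∈ range n, ∑ l ∈ IL K (A.card + 1), ∑ s ∈ C.powerset,
        κ ^ m * (∏ k, lam k ^ l k) * ((∏ e ∈ s, q e) * ∏ e ∈ C \ s, (1 - q e)) *
        ∑ v ∈ PK A kd l, alt v (fun T => Ec (fun _ => (1 / 2 : ℂ)) Bk
          (fun ω => G m (ω ∪ st T ∪ s))) := by
  rw [Ec_sum]
  refine sum_congr rfl fun m _ => ?_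
  rw [Ec_smul, expandT hFr hst hd1 hd2 hT hT' hB, sum_comm' (t' := C.powerset)
    (s' := fun _ => IL K (A.card + 1)) (by intro x y; tauto), mul_sum]
  refine sum_congr rfl fun s _ => ?_
  rw [mul_sum, mul_sum]
  refine sum_congr rfl fun l _ => ?_
  ring

end abs

section row

variable {K : Type*} [Fintype K] [DecidableEq K] {N : ℕ} {X : Env} {x0 y0 : ℤ}

/-- the coefficients of the expansion -/
noncomputable def HT (X : Env) (x0 y0 : ℤ) (y : Fin N × Dir) (A : Finset (ℤ × ℤ))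
    (kd : ℤ × ℤ → K) (Bk : Finset (ℤ × ℤ)) (st : Finset (ℤ × ℤ) → Finset (ℤ × ℤ)) (m : ℕ)
    (l : K → ℕ) (s : Finset (ℤ × ℤ)) : ℂ :=
  ∑ v ∈ PK A kd l, alt v (fun T => Ec (fun _ => (1 / 2 : ℂ)) Bk
    (fun ω => ∑ S ∈ powersetCard m (univ : Finset (Fin N)),
      AR X x0 y0 y (cA S (zt ^ (4 : ℤ))) (cB S (zt ^ (-4 : ℤ))) (ω ∪ st T ∪ s)))

variable {q : ℤ × ℤ → ℂ} {κ : ℂ} {C A Bk Fr : Finset (ℤ × ℤ)} {kd : ℤ × ℤ → K} {lam : K → ℂ}
  {st : Finset (ℤ × ℤ) → Finset (ℤ × ℤ)}

/-- too many cut ties of one kind -/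
lemma HT_zero (y : Fin N × Dir) (Bk : Finset (ℤ × ℤ)) (m : ℕ) {l : K → ℕ} (s : Finset (ℤ × ℤ))
    {k : K} (hl : A.card < l k) : HT X x0 y0 y A kd Bk st m l s = 0 := by
  unfold HT
  rw [PK_empty hl, sum_empty]

/-- too many coupons -/
lemma HT_zero' (y : Fin N × Dir) (Bk : Finset (ℤ × ℤ)) {m : ℕ} (l : K → ℕ)
    (s : Finset (ℤ × ℤ)) (hm : N < m) : HT X x0 y0 y A kd Bk st m l s = 0 := by
  unfold HT
  refine sum_eq_zero fun v _ => ?_
  unfold alt
  refine sum_eq_zero fun T _ => ?_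
  rw [powersetCard_eq_empty.2 (by rw [card_univ, Fintype.card_fin]; exact hm)]
  simp only [sum_empty]
  rw [Ec_const, mul_zero]

/-- **The exact expansion of the increments of a row.** -/
theorem incW_expandT (hrow : HasRow X N x0 y0)
    (ha : ∀ c, wA (rl (N := N) x0 y0) (rp x0 y0) q c = zt ^ (4 : ℤ) + κ)
    (hb : ∀ c, wB (rl (N := N) x0 y0) (rp x0 y0) q c = zt ^ (-4 : ℤ) - κ)
    (hE : X.E \ RS N x0 y0 = C ∪ (A ∪ Bk))
    (hFr : Fr ⊆ A) (hst : ∀ T, T ⊆ A → st T = symmDiff T Fr)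
    (hd1 : Disjoint C (A ∪ Bk)) (hd2 : Disjoint A Bk) (hT : ∀ e ∈ A, e ∉ Fr → q e = lam (kd e))
    (hT' : ∀ e ∈ Fr, q e = 1 - lam (kd e)) (hB : ∀ e ∈ Bk, q e = 1 / 2) (y : Fin N × Dir)
    {M L : ℕ} (hM : N ≤ M) (hL : A.card ≤ L) :
    X.incW q (rcr x0 y0 y) =
      ∑ m ∈ range (M + 1), ∑ l ∈ IL K (L + 1), ∑ s ∈ C.powerset,
        κ ^ m * (∏ k, lam k ^ l k) * ((∏ e ∈ s, q e) * ∏ e ∈ C \ s, (1 - q e)) *
          HT X x0 y0 y A kd Bk st m l s := by
  have e1 : wA (rl (N := N) x0 y0) (rp x0 y0) q = fun _ => zt ^ (4 : ℤ) + κ := funext ha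
  have e2 : wB (rl (N := N) x0 y0) (rp x0 y0) q = fun _ => zt ^ (-4 : ℤ) - κ := funext hb
  have key : X.incW q (rcr x0 y0 y) =
      ∑ m ∈ range (N + 1), ∑ l ∈ IL K (A.card + 1), ∑ s ∈ C.powerset,
        κ ^ m * (∏ k, lam k ^ l k) * ((∏ e ∈ s, q e) * ∏ e ∈ C \ s, (1 - q e)) *
          HT X x0 y0 y A kd Bk st m l s := by
    rw [incW_row hrow, e1, e2, hE]
    have e4 : Ec q (C ∪ (A ∪ Bk))
        (AR X x0 y0 y (fun _ => zt ^ (4 : ℤ) + κ) (fun _ => zt ^ (-4 : ℤ) - κ)) =
        Ec q (C ∪ (A ∪ Bk)) (fun ω => ∑ m ∈ range (N + 1), κ ^ m *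
          ∑ S ∈ powersetCard m (univ : Finset (Fin N)),
            AR X x0 y0 y (cA S (zt ^ (4 : ℤ))) (cB S (zt ^ (-4 : ℤ))) ω) := by
      refine Ec_congr fun ω _ => ?_
      rw [AR_coupons]
      have h3 := sum_powerset (univ : Finset (Fin N)) (fun S => κ ^ S.card *
        AR X x0 y0 y (cA S (zt ^ (4 : ℤ))) (cB S (zt ^ (-4 : ℤ))) ω)
      rw [powerset_univ, card_univ, Fintype.card_fin] at h3
      rw [h3]
      refine sum_congr rfl fun m _ => ?_
      rw [mul_sum]
      refine sum_congr rfl fun S hS => ?_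
      rw [(mem_powersetCard.1 hS).2]
    rw [e4, expandT_poly hFr hst hd1 hd2 hT hT' hB]
    rfl
  rw [key]
  rw [sum_subset (range_subset_range.2 (by omega : N + 1 ≤ M + 1)) (fun m _ hm => ?_)]
  · refine sum_congr rfl fun m _ => ?_
    refine sum_subset (IL_mono (by omega)) fun l _ hl => ?_
    rw [mem_IL, not_forall] at hl
    obtain ⟨k, hk⟩ := hl
    refine sum_eq_zero fun s _ => ?_
    rw [HT_zero (k := k) y Bk m s (by omega), mul_zero]
  · rw [mem_range] at hm
    refine sum_eq_zero fun l _ => sum_eq_zero fun s _ => ?_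
    rw [HT_zero' y Bk l s (by omega), mul_zero]

end row

end Pool.Agent.H76.Sp
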