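import Mathlib
import Pool.Agent.H76.Sp.ExpK
import Pool.Agent.H30.Mid.Row
import Pool.Agent.Q1.M6b.Asm3

set_option autoImplicit false
open Finset

/-! # Exact expansion of the increments of a row, several kinds of small weights

`X` any environment with a row of random labels. The other labels: `C` (kept explicitly), `A` (weight
`lam (kd e)`), `Bk` (weight `1/2`). -/

namespace Pool.Agent.H76.Sp

open Pool.Agent.H75.Perc hiding AR VV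
open Pool.Agent.H75.TwoArm hiding EF
open Pool.Agent.H99.NC
open Pool.Agent.Q1 Pool.Agent.H33.Q1
open Pool.Agent.H81.G1 Pool.Agent.Q1.M6b.Gd Pool.Agent.H76.R45
open Pool.Agent.H30.Mid

variable {K : Type*} [Fintype K] [DecidableEq K] {N : ℕ} {X : Env} {x0 y0 : ℤ}

/-- the coefficients of the expansion -/
noncomputable def HK (X : Env) (x0 y0 : ℤ) (y : Fin N × Dir) (A : Finset (ℤ × ℤ))
    (kd : ℤ × ℤ → K) (Bk : Finset (ℤ × ℤ)) (m : ℕ) (l : K → ℕ) (s : Finset (ℤ × ℤ)) : ℂ :=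
  ∑ v ∈ PK A kd l, alt v (fun T => Ec (fun _ => (1 / 2 : ℂ)) Bk
    (fun ω => ∑ S ∈ powersetCard m (univ : Finset (Fin N)),
      AR X x0 y0 y (cA S (zt ^ (4 : ℤ))) (cB S (zt ^ (-4 : ℤ))) (ω ∪ T ∪ s)))

/-- **The exact expansion.** -/
theorem incW_expandK (hrow : HasRow X N x0 y0) {q : ℤ × ℤ → ℂ} {κ : ℂ}
    (ha : ∀ c, wA (rl (N := N) x0 y0) (rp x0 y0) q c = zt ^ (4 : ℤ) + κ)
    (hb : ∀ c, wB (rl (N := N) x0 y0) (rp x0 y0) q c = zt ^ (-4 : ℤ) - κ)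
    {C A Bk : Finset (ℤ × ℤ)} {kd : ℤ × ℤ → K} {lam : K → ℂ}
    (hE : X.E \ RS N x0 y0 = C ∪ (A ∪ Bk)) (hd1 : Disjoint C (A ∪ Bk)) (hd2 : Disjoint A Bk)
    (hT : ∀ e ∈ A, q e = lam (kd e)) (hB : ∀ e ∈ Bk, q e = 1 / 2) (y : Fin N × Dir) :
    X.incW q (rcr x0 y0 y) =
      ∑ m ∈ range (N + 1), ∑ l ∈ IL K (A.card + 1), ∑ s ∈ C.powerset,
        κ ^ m * (∏ k, lam k ^ l k) * ((∏ e ∈ s, q e) * ∏ e ∈ C \ s, (1 - q e)) *
          HK X x0 y0 y A kd Bk m l s := by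
  have e1 : wA (rl (N := N) x0 y0) (rp x0 y0) q = fun _ => zt ^ (4 : ℤ) + κ := funext ha
  have e2 : wB (rl (N := N) x0 y0) (rp x0 y0) q = fun _ => zt ^ (-4 : ℤ) - κ := funext hb
  rw [incW_row hrow, e1, e2, hE]
  have e4 : Ec q (C ∪ (A ∪ Bk))
      (AR X x0 y0 y (fun _ => zt ^ (4 : ℤ) + κ) (fun _ => zt ^ (-4 : ℤ) - κ)) =
      Ec q (C ∪ (A ∪ Bk)) (fun ω => ∑ m ∈ range (N + 1), κ ^ m *
        ∑ S ∈ powersetCard m (univ : Finset (Fin N)),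
          AR X x0 y0 y (cA S (zt ^ (4 : ℤ))) (cB S (zt ^ (-4 : ℤ))) ω) := by
    refine Ec_congr fun ω _ => ?_
    rw [AR_coupons]
    have h3 := sum_powerset (univ : Finset (Fin N)) (fun S => κ ^ S.card *
      AR X x0 y0 y (cA S (zt ^ (4 : ℤ))) (cB S (zt ^ (-4 : ℤ))) ω)
    rw [powerset_univ, card_univ, Fintype.card_fin] at h3
    rw [h3]
    refine sum_congr rfl fun m _ => ?_
    rw [mul_sum]
    refine sum_congr rfl fun S hS => ?_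
    rw [(mem_powersetCard.1 hS).2]
  rw [e4, expandK_poly hd1 hd2 hT hB]
  rfl

/-- too many small weights of one kind -/
lemma HK_zero (y : Fin N × Dir) {A : Finset (ℤ × ℤ)} {kd : ℤ × ℤ → K} (Bk : Finset (ℤ × ℤ))
    (m : ℕ) {l : K → ℕ} (s : Finset (ℤ × ℤ)) {k : K} (hl : A.card < l k) :
    HK X x0 y0 y A kd Bk m l s = 0 := by
  unfold HK
  rw [PK_empty hl, sum_empty]

/-- too many coupons -/
lemma HK_zero' (y : Fin N × Dir) (A : Finset (ℤ × ℤ)) (kd : ℤ × ℤ → K) (Bk : Finset (ℤ × ℤ))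
    {m : ℕ} (l : K → ℕ) (s : Finset (ℤ × ℤ)) (hm : N < m) :
    HK X x0 y0 y A kd Bk m l s = 0 := by
  unfold HK
  refine sum_eq_zero fun v _ => ?_
  unfold alt
  refine sum_eq_zero fun T _ => ?_
  rw [powersetCard_eq_empty.2 (by rw [card_univ, Fintype.card_fin]; exact hm)]
  simp only [sum_empty]
  rw [Ec_const, mul_zero]

/-- **The exact expansion over a larger set of indices.** -/
theorem incW_expandK' (hrow : HasRow X N x0 y0) {q : ℤ × ℤ → ℂ} {κ : ℂ}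
    (ha : ∀ c, wA (rl (N := N) x0 y0) (rp x0 y0) q c = zt ^ (4 : ℤ) + κ)
    (hb : ∀ c, wB (rl (N := N) x0 y0) (rp x0 y0) q c = zt ^ (-4 : ℤ) - κ)
    {C A Bk : Finset (ℤ × ℤ)} {kd : ℤ × ℤ → K} {lam : K → ℂ}
    (hE : X.E \ RS N x0 y0 = C ∪ (A ∪ Bk)) (hd1 : Disjoint C (A ∪ Bk)) (hd2 : Disjoint A Bk)
    (hT : ∀ e ∈ A, q e = lam (kd e)) (hB : ∀ e ∈ Bk, q e = 1 / 2) (y : Fin N × Dir) {M L : ℕ}
    (hM : N ≤ M) (hL : A.card ≤ L) :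
    X.incW q (rcr x0 y0 y) =
      ∑ m ∈ range (M + 1), ∑ l ∈ IL K (L + 1), ∑ s ∈ C.powerset,
        κ ^ m * (∏ k, lam k ^ l k) * ((∏ e ∈ s, q e) * ∏ e ∈ C \ s, (1 - q e)) *
          HK X x0 y0 y A kd Bk m l s := by
  rw [incW_expandK hrow ha hb hE hd1 hd2 hT hB y]
  rw [sum_subset (range_subset_range.2 (by omega : N + 1 ≤ M + 1)) (fun m _ hm => ?_)]
  · refine sum_congr rfl fun m _ => ?_
    refine sum_subset (IL_mono (by omega)) fun l _ hl => ?_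
    rw [mem_IL, not_forall] at hl
    obtain ⟨k, hk⟩ := hl
    refine sum_eq_zero fun s _ => ?_
    rw [HK_zero (k := k) y Bk m s (by omega), mul_zero]
  · rw [mem_range] at hm
    refine sum_eq_zero fun l _ => sum_eq_zero fun s _ => ?_
    rw [HK_zero' y A kd Bk l s (by omega), mul_zero]

/-- **The sum over the ties**, a family of sets. -/
theorem ties_sumV {ι : Type*} [DecidableEq ι] {Bk : Finset (ℤ × ℤ)} {Wt : Finset ι} {l : ℕ}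
    {V : Finset (Finset ι)} (hV : V ⊆ powersetCard l Wt)
    {B : Finset ι → ι → Finset (ℤ × ℤ)}
    {P1 : Finset ι → ι → Finset (ℤ × ℤ) → Prop}
    {G : Finset ι → Finset (ℤ × ℤ) → ℂ} {M : ℝ} {ρ : Finset ι → ι → ℝ}
    (hM0 : 0 ≤ M)
    (hB : ∀ v ∈ V, ∀ x ∈ v, B v x ⊆ Bk)
    (hd : ∀ v ∈ V, ∀ x ∈ v, ∀ y ∈ v, x ≠ y → Disjoint (B v x) (B v y))
    (hρ : ∀ v ∈ powersetCard l Wt, ∀ x ∈ v, 0 ≤ ρ v x)
    (hP : ∀ v ∈ V, ∀ x ∈ v,
      PrP (fun _ => (1 / 2 : ℝ)) (B v x) (P1 v x) ≤ ρ v x)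
    (h0 : ∀ v ∈ V, ∀ x ∈ v, ∀ T, T ⊆ v → x ∉ T → ∀ ω, ω ⊆ Bk →
      ¬ P1 v x (ω ∩ B v x) → G T ω = G (insert x T) ω)
    (h1 : ∀ v ∈ V, ∀ ξ, ξ ⊆ v.biUnion (B v) → (∀ x ∈ v, P1 v x (ξ ∩ B v x)) →
      ∀ T, T ⊆ v → ‖Ec (fun _ => (1 / 2 : ℂ)) (Bk \ v.biUnion (B v)) (fun ω => G T (ξ ∪ ω))‖ ≤ M) :
    ‖∑ v ∈ V, alt v (fun T => Ec (fun _ => (1 / 2 : ℂ)) Bk (G T))‖ ≤
      2 ^ l * M * ∑ v ∈ powersetCard l Wt, ∏ x ∈ v, ρ v x := by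
  have hterm : ∀ v ∈ V, ‖alt v (fun T => Ec (fun _ => (1 / 2 : ℂ)) Bk (G T))‖ ≤
      2 ^ l * M * ∏ x ∈ v, ρ v x := by
    intro v hv
    have hcard := (mem_powersetCard.1 (hV hv)).2
    have h2 := wall_bound (B := B v) (P1 := P1 v) (G := G) (M := M) (hB v hv) (hd v hv)
      (h0 v hv) (h1 v hv)
    refine h2.trans ?_
    have h3 : ∏ x ∈ v, PrP (fun _ => (1 / 2 : ℝ)) (B v x) (P1 v x) ≤ ∏ x ∈ v, ρ v x := by
      refine prod_le_prod (fun x _ => ?_) fun x hx => hP v hv x hx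
      exact PrP_nonneg (Pb.const (by norm_num) (by norm_num)) _ _
    calc (∏ x ∈ v, PrP (fun _ => (1 / 2 : ℝ)) (B v x) (P1 v x)) * (2 ^ v.card * M)
        ≤ (∏ x ∈ v, ρ v x) * (2 ^ v.card * M) :=
          mul_le_mul_of_nonneg_right h3 (by positivity)
      _ = _ := by rw [hcard]; ring
  calc ‖∑ v ∈ V, alt v (fun T => Ec (fun _ => (1 / 2 : ℂ)) Bk (G T))‖
      ≤ ∑ v ∈ V, ‖alt v (fun T => Ec (fun _ => (1 / 2 : ℂ)) Bk (G T))‖ := norm_sum_le _ _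
    _ ≤ ∑ v ∈ V, 2 ^ l * M * ∏ x ∈ v, ρ v x := sum_le_sum hterm
    _ ≤ ∑ v ∈ powersetCard l Wt, 2 ^ l * M * ∏ x ∈ v, ρ v x := by
        refine sum_le_sum_of_subset_of_nonneg hV fun v hv _ => ?_
        exact mul_nonneg (by positivity) (prod_nonneg fun x hx => hρ v hv x hx)
    _ = _ := by rw [mul_sum]

end Pool.Agent.H76.Sp
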