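import Mathlib
import Pool.Agent.H76.Sp.Flip
import Pool.Agent.H46.Sp.TSys
import Pool.Agent.Q1.M6b.Asm4

set_option autoImplicit false
open Finset

/-! # Bound of the coefficients of the expansion of a row from the frozen bound

`S : TSys κ` is the system of the ties of the environment `X`. -/

namespace Pool.Agent.H76.Sp

open Pool.Agent.H75.Perc hiding AR VV
open Pool.Agent.H75.TwoArm hiding EF
open Pool.Agent.H99.NC
open Pool.Agent.Q1 Pool.Agent.H33.Q1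
open Pool.Agent.H81.G1 Pool.Agent.Q1.M6b.Gd Pool.Agent.H76.R45
open Pool.Agent.H30.Mid Pool.Agent.H46.Sp
open Pool.Agent.Q1.M6b.Gl
open Pool.Agent.Q1.M6b (cr)

variable {N : ℕ} {x0 y0 : ℤ}

/-! ### Toggles -/

section toggle

variable {κ : Type*} [Fintype κ] [DecidableEq κ] [Nonempty κ] {S : TSys κ} {X : Env}
  {W Bk C σ A T ω : Finset (ℤ × ℤ)} {L K : ℤ} {e : ℤ × ℤ}

/-- the amplitudes do not see a tie with a small wall cluster -/
lemma AR_tog (hX : X.PlaneLike W) (hd : Disjoint X.E W) (hO : S.Ok X.E W L) (hK : 20 ≤ K)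
    (hKL : ∀ a, (S.N a : ℤ) < K * L) (hrow : HasRow X N x0 y0)
    (hRT : Disjoint (RS N x0 y0) (S.Ti ∪ Bk)) (hC : C ⊆ X.E) (hCR : ∀ l ∈ C, l ∉ RS N x0 y0)
    (hCT : Disjoint C (S.Ti ∪ Bk)) (hBk : Bk ⊆ X.E) (hTB : Disjoint S.Ti Bk)
    (hbk : ∀ a u t, 0 ≤ u → S.Rg L a u t → lt (S.tl a u t) ∈ Bk)
    (hroot : S.Away L (plab X.c0)) (y : Fin N × Dir) (hy : S.Away L (lab (rcr x0 y0 y)))
    (a b : Fin N → ℂ) (hA : A ⊆ S.Ti) (he : e ∈ A) (hT : T ⊆ A) (heT : e ∉ T) (hω : ω ⊆ Bk)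
    (hσ : σ ⊆ C) (hQ : ¬ S.Qt K A e (ω ∩ S.Bt K A e)) :
    AR X x0 y0 y a b (ω ∪ S.st T ∪ σ) = AR X x0 y0 y a b (ω ∪ S.st (insert e T) ∪ σ) := by
  have hst : ∀ T', S.st T' ⊆ S.Ti := fun T' => filter_subset _ _
  have hBtB : S.Bt K A e ⊆ Bk := by
    obtain ⟨hx, hxe⟩ := hO.idx_mem (hA he)
    intro l hl
    rw [← hxe] at hl
    obtain ⟨u, t, rfl, h1, h2⟩ := TSys.Bt_rg hO hK hKL hx hl
    exact hbk _ _ _ h1 h2
  unfold AR
  refine sum_congr rfl fun s _ => ?_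
  congr 1
  have hs := osn_subR (x0 := x0) (y0 := y0) s
  have hsE : osn (rl x0 y0) (rp x0 y0) s ⊆ X.E ∩ RS N x0 y0 := subset_inter (hs.trans hrow) hs
  rw [Env.freeze_incO hsE, Env.freeze_incO hsE]
  set om := osn (rl x0 y0) (rp x0 y0) s ∪ (ω ∪ σ) with hom
  have hnR : ∀ l ∈ S.Ti ∪ Bk, l ∉ RS N x0 y0 := fun l hl h => disjoint_left.1 hRT h hl
  have hmem : ∀ T', osn (rl x0 y0) (rp x0 y0) s ∪
      (ω ∪ S.st T' ∪ σ) ∩ (X.E \ RS N x0 y0) = om ∪ S.st T' := by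
    intro T'
    ext l
    simp only [hom, mem_union, mem_inter, mem_sdiff]
    constructor
    · rintro (h1 | ⟨(h1 | h1) | h1, h2, h3⟩)
      · exact Or.inl (Or.inl h1)
      · exact Or.inl (Or.inr (Or.inl h1))
      · exact Or.inr h1
      · exact Or.inl (Or.inr (Or.inr h1))
    · rintro ((h1 | h1 | h1) | h1)
      · exact Or.inl h1
      · exact Or.inr ⟨Or.inl (Or.inl h1), hBk (hω h1), hnR l (mem_union_right _ (hω h1))⟩
      · exact Or.inr ⟨Or.inr h1, hC (hσ h1), hCR l (hσ h1)⟩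
      · exact Or.inr ⟨Or.inl (Or.inr h1), hO.sub (hst T' h1),
          hnR l (mem_union_left _ (hst T' h1))⟩
  rw [hmem, hmem]
  have hsub : ∀ l ∈ om, l ∈ RS N x0 y0 ∨ l ∈ ω ∨ l ∈ σ := by
    intro l hl
    rw [hom, mem_union, mem_union] at hl
    rcases hl with h1 | h1 | h1
    · exact Or.inl (hs h1)
    · exact Or.inr (Or.inl h1)
    · exact Or.inr (Or.inr h1)
  have homE : om ⊆ X.E \ S.Ti := by
    intro l hl
    rw [mem_sdiff]
    rcases hsub l hl with h1 | h1 | h1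
    · exact ⟨hrow h1, fun h2 => hnR l (mem_union_left _ h2) h1⟩
    · exact ⟨hBk (hω h1), fun h2 => disjoint_left.1 hTB h2 (hω h1)⟩
    · exact ⟨hC (hσ h1), fun h2 => disjoint_left.1 hCT (hσ h1) (mem_union_left _ h2)⟩
  refine TSys.toggle hX hd hO hK hKL hA he homE hT heT ?_ hroot hy
  rw [TSys.Qt_local]
  have e2 : om ∩ S.Bt K A e = ω ∩ S.Bt K A e := by
    ext l
    rw [mem_inter, mem_inter]
    constructor
    · rintro ⟨h3, h4⟩
      refine ⟨?_, h4⟩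
      rcases hsub l h3 with h5 | h5 | h5
      · exact absurd h5 (hnR l (mem_union_right _ (hBtB h4)))
      · exact h5
      · exact absurd (mem_union_right _ (hBtB h4)) (disjoint_left.1 hCT (hσ h5))
    · rintro ⟨h3, h4⟩
      refine ⟨?_, h4⟩
      rw [hom, mem_union, mem_union]
      exact Or.inr (Or.inl h3)
  rw [e2]
  exact hQ

end toggle

/-! ### The bound -/

/-- **The coefficients from the frozen bound.** -/
theorem HT_bound : ∃ C0 : ℝ, 1 ≤ C0 ∧ ∀ {κ : Type} [Fintype κ] [DecidableEq κ] [Nonempty κ]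
    (S : TSys κ) {K' : Type} [Fintype K'] [DecidableEq K'] (kd : ℤ × ℤ → K') {X : Env}
    {W Bk C : Finset (ℤ × ℤ)} {N : ℕ} {x0 y0 L K : ℤ} {Mx : ℕ},
    X.PlaneLike W → Disjoint X.E W → S.Ok X.E W L → 20 ≤ K → (∀ a, (S.N a : ℤ) < K * L) →
    (∀ a, S.N a ≤ Mx) → HasRow X N x0 y0 → X.E \ RS N x0 y0 = C ∪ (S.Ti ∪ Bk) →
    Disjoint C (S.Ti ∪ Bk) → Disjoint S.Ti Bk →
    (∀ a u t, 0 ≤ u → S.Rg L a u t → lt (S.tl a u t) ∈ Bk) → S.Away L (plab X.c0) →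
    ∀ (y : Fin N × Dir), S.Away L (lab (rcr x0 y0 y)) → ∀ (m : ℕ) (l : K' → ℕ)
      (σ : Finset (ℤ × ℤ)), σ ⊆ C → ∀ M : ℝ, 0 ≤ M →
    (∀ v ∈ powersetCard (∑ k, l k) S.Ti, ∀ T, T ⊆ v → ∀ ξ, ξ ⊆ v.biUnion (S.Bt K v) →
      ‖Ec (fun _ => (1 / 2 : ℂ)) (Bk \ v.biUnion (S.Bt K v)) (fun ω =>
        ∑ S' ∈ powersetCard m (univ : Finset (Fin N)),
          AR X x0 y0 y (cA S' (zt ^ (4 : ℤ))) (cB S' (zt ^ (-4 : ℤ))) (ω ∪ (ξ ∪ S.st T ∪ σ)))‖ ≤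
        M) →
    ‖HT X x0 y0 y S.Ti kd Bk S.st m l σ‖ ≤
      2 ^ (∑ k, l k) * M * ((C0 * K) ^ (∑ k, l k) *
        ((((∑ k, l k : ℕ) + 1) * 6 ^ (∑ k, l k)) ^ Fintype.card κ *
          (cr ((Mx + 1 : ℕ) : ℝ) ^ 2) ^ (∑ k, l k))) := by
  obtain ⟨C0, hC0, hP⟩ := TSys.Qt_le
  refine ⟨C0, hC0, ?_⟩
  intro κ _ _ _ S K' _ _ kd X W Bk C N x0 y0 L K Mx hX hd hO hK hKL hMx hrow hE hCT hTB hbk hroot
    y hy m l σ hσ M hM FB
  have hEx : ∀ l ∈ C ∪ (S.Ti ∪ Bk), l ∈ X.E ∧ l ∉ RS N x0 y0 := by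
    intro l hl
    rw [← hE] at hl
    exact mem_sdiff.1 hl
  have hRT : Disjoint (RS N x0 y0) (S.Ti ∪ Bk) := by
    rw [disjoint_left]
    exact fun l h1 h2 => (hEx l (mem_union_right _ h2)).2 h1
  have hC : C ⊆ X.E := fun l hl => (hEx l (mem_union_left _ hl)).1
  have hCR : ∀ l ∈ C, l ∉ RS N x0 y0 := fun l hl => (hEx l (mem_union_left _ hl)).2
  have hBk : Bk ⊆ X.E := fun l hl => (hEx l (mem_union_right _ (mem_union_right _ hl))).1
  have hBtB : ∀ v, v ⊆ S.Ti → ∀ e ∈ v, S.Bt K v e ⊆ Bk := by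
    intro v hv e he
    obtain ⟨hx, hxe⟩ := hO.idx_mem (hv he)
    intro l hl
    rw [← hxe] at hl
    obtain ⟨u, t, rfl, h1, h2⟩ := TSys.Bt_rg hO hK hKL hx hl
    exact hbk _ _ _ h1 h2
  have key := ties_sumV (Bk := Bk) (Wt := S.Ti) (l := ∑ k, l k) (V := PK S.Ti kd l)
    (PK_sub S.Ti kd l) (B := fun v => S.Bt K v) (P1 := fun v => S.Qt K v)
    (G := fun T ω => ∑ S' ∈ powersetCard m (univ : Finset (Fin N)),
      AR X x0 y0 y (cA S' (zt ^ (4 : ℤ))) (cB S' (zt ^ (-4 : ℤ))) (ω ∪ S.st T ∪ σ))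
    (M := M) (ρ := fun v x => C0 * K * (cr (S.gD v x : ℝ))⁻¹) hM ?_ ?_ ?_ ?_ ?_ ?_
  · refine key.trans (mul_le_mul_of_nonneg_left ?_ (by positivity))
    have e1 : ∀ v ∈ powersetCard (∑ k, l k) S.Ti, ∏ x ∈ v, (C0 * K * (cr (S.gD v x : ℝ))⁻¹) =
        (C0 * K) ^ (∑ k, l k) * ∏ x ∈ v, (cr (S.gD v x : ℝ))⁻¹ := by
      intro v hv
      rw [prod_mul_distrib, prod_const, (mem_powersetCard.1 hv).2]
    rw [sum_congr rfl e1, ← mul_sum]
    refine mul_le_mul_of_nonneg_left (TSys.sum_ties hO hMx (∑ k, l k)) ?_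
    have hKR : (0 : ℝ) ≤ K := by exact_mod_cast (by omega : (0 : ℤ) ≤ K)
    exact pow_nonneg (mul_nonneg (by linarith) hKR) _
  · intro v hv x hx
    exact hBtB v (mem_PK.1 hv).1 x hx
  · intro v hv x hx x' hx' hne
    exact TSys.Bt_disj hO (mem_PK.1 hv).1 hK hKL hx hx' hne
  · intro v hv x hx
    have h1 := TSys.gD_pos hO (mem_powersetCard.1 hv).1 hx
    have hKR : (0 : ℝ) ≤ K := by exact_mod_cast (by omega : (0 : ℤ) ≤ K)
    refine mul_nonneg (mul_nonneg (by linarith) hKR)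
      (inv_nonneg.2 (Pool.Agent.Q1.M6b.cr_nonneg ?_))
    exact_mod_cast (by omega : (0 : ℤ) ≤ S.gD v x)
  · intro v hv x hx
    exact hP S K v x (by omega) (TSys.gD_pos hO (mem_PK.1 hv).1 hx)
  · intro v hv x hx T hT hxT ω hω hQ
    refine sum_congr rfl fun S' _ => ?_
    exact AR_tog hX hd hO hK hKL hrow hRT hC hCR hCT hBk hTB hbk hroot y hy _ _ (mem_PK.1 hv).1 hx hT
      hxT hω hσ hQ
  · intro v hv ξ hξ _ T hT
    have h3 := FB v (PK_sub S.Ti kd l hv) T hT ξ hξ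
    have e5 : ∀ ω : Finset (ℤ × ℤ), ξ ∪ ω ∪ S.st T ∪ σ = ω ∪ (ξ ∪ S.st T ∪ σ) := by
      intro ω
      ext e
      simp only [mem_union]
      tauto
    simp only [e5]
    exact h3

/-- **The coefficients from the frozen bound**, glued form. -/
theorem HT_bound' : ∃ C0 : ℝ, 1 ≤ C0 ∧ ∀ {κ : Type} [Fintype κ] [DecidableEq κ] [Nonempty κ]
    (S : TSys κ) {K' : Type} [Fintype K'] [DecidableEq K'] (kd : ℤ × ℤ → K') {X : Env}
    {W EL EU C : Finset (ℤ × ℤ)} {N : ℕ} {x0 y0 L K : ℤ} {Mx : ℕ},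
    X.PlaneLike W → Disjoint X.E W → S.Ok X.E W L → 20 ≤ K → (∀ a, (S.N a : ℤ) < K * L) →
    (∀ a, S.N a ≤ Mx) → HasRow X N x0 y0 → X.E \ RS N x0 y0 = C ∪ (S.Ti ∪ (EL ∪ EU)) →
    Disjoint C (S.Ti ∪ (EL ∪ EU)) → Disjoint S.Ti (EL ∪ EU) → Disjoint EL EU →
    Disjoint EL (EU.map (tr (1, -1))) →
    (∀ a u t, 0 ≤ u → S.Rg L a u t → lt (S.tl a u t) ∈ EL ∪ EU) → S.Away L (plab X.c0) →
    ∀ (y : Fin N × Dir), S.Away L (lab (rcr x0 y0 y)) → ∀ (m : ℕ) (l : K' → ℕ)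
      (σ : Finset (ℤ × ℤ)), σ ⊆ C → ∀ (k : ℤ) (M : ℝ), 0 ≤ M →
    (∀ v ∈ powersetCard (∑ k, l k) S.Ti, ∀ T, T ⊆ v → ∀ ξ, ξ ⊆ v.biUnion (S.Bt K v) →
      ‖∑ s ∈ powersetCard m (Finset.Ico (-k) ((N : ℤ) - k)), Ec (fun _ => (1 / 2 : ℂ))
        (gE (EL \ v.biUnion (S.Bt K v)) (EU \ v.biUnion (S.Bt K v)) (1, -1))
        (Amp (X.freeze ((EL \ v.biUnion (S.Bt K v)) ∪ (EU \ v.biUnion (S.Bt K v)) ∪
          RS N x0 y0) (ξ ∪ S.st T ∪ σ)) x0 y0 y (zt ^ (4 : ℤ)) (zt ^ (-4 : ℤ))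
          (EL \ v.biUnion (S.Bt K v)) (EU \ v.biUnion (S.Bt K v)) k s)‖ ≤ M) →
    ‖HT X x0 y0 y S.Ti kd (EL ∪ EU) S.st m l σ‖ ≤
      2 ^ (∑ k, l k) * M * ((C0 * K) ^ (∑ k, l k) *
        ((((∑ k, l k : ℕ) + 1) * 6 ^ (∑ k, l k)) ^ Fintype.card κ *
          (cr ((Mx + 1 : ℕ) : ℝ) ^ 2) ^ (∑ k, l k))) := by
  obtain ⟨C0, hC0, hb⟩ := HT_bound
  refine ⟨C0, hC0, ?_⟩
  intro κ _ _ _ S K' _ _ kd X W EL EU C N x0 y0 L K Mx hX hd hO hK hKL hMx hrow hE hCT hTB hLU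
    hLU' hbk hroot y hy m l σ hσ k M hM FB
  refine hb S kd hX hd hO hK hKL hMx hrow hE hCT hTB hbk hroot y hy m l σ hσ M hM ?_
  intro v hv T hT ξ hξ
  have hvT := (mem_powersetCard.1 hv).1
  have hss : (EL \ v.biUnion (S.Bt K v)) ∪ (EU \ v.biUnion (S.Bt K v)) ⊆ EL ∪ EU :=
    union_subset_union sdiff_subset sdiff_subset
  have hEx : ∀ l ∈ C ∪ (S.Ti ∪ (EL ∪ EU)), l ∈ X.E ∧ l ∉ RS N x0 y0 := by
    intro l hl
    rw [← hE] at hl
    exact mem_sdiff.1 hl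
  have hBtB : v.biUnion (S.Bt K v) ⊆ EL ∪ EU := by
    refine biUnion_subset.2 fun e he => ?_
    obtain ⟨hx, hxe⟩ := hO.idx_mem (hvT he)
    intro l hl
    rw [← hxe] at hl
    obtain ⟨u, t, rfl, h1, h2⟩ := TSys.Bt_rg hO hK hKL hx hl
    exact hbk _ _ _ h1 h2
  have hst : S.st T ⊆ S.Ti := filter_subset _ _
  have h3 := FB v hv T hT ξ hξ
  rw [← frozen_sumG hrow (fun l hl => mem_sdiff.2 (hEx l (mem_union_right _ (mem_union_right _
      (hss hl))))) (hLU.mono sdiff_subset sdiff_subset)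
    (hLU'.mono sdiff_subset (map_subset_map.2 sdiff_subset)) y _ _ m k ?_] at h3
  · rw [union_sdiff_distrib]
    exact h3
  · intro l hl
    rw [mem_union, mem_union] at hl
    rw [mem_sdiff, mem_union, mem_union, mem_sdiff, mem_sdiff]
    rcases hl with (h4 | h4) | h4
    · have h5 := hBtB (hξ h4)
      have h6 := hEx l (mem_union_right _ (mem_union_right _ h5))
      refine ⟨h6.1, ?_⟩
      rintro ((h7 | h7) | h7)
      · exact h7.2 (hξ h4)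
      · exact h7.2 (hξ h4)
      · exact h6.2 h7
    · have h5 := hst h4
      have h6 := hEx l (mem_union_right _ (mem_union_left _ h5))
      refine ⟨h6.1, ?_⟩
      rintro ((h7 | h7) | h7)
      · exact disjoint_left.1 hTB h5 (mem_union_left _ h7.1)
      · exact disjoint_left.1 hTB h5 (mem_union_right _ h7.1)
      · exact h6.2 h7
    · have h5 := hσ h4
      have h6 := hEx l (mem_union_left _ h5)
      refine ⟨h6.1, ?_⟩
      rintro ((h7 | h7) | h7)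
      · exact disjoint_left.1 hCT h5 (mem_union_right _ (mem_union_left _ h7.1))
      · exact disjoint_left.1 hCT h5 (mem_union_right _ (mem_union_right _ h7.1))
      · exact h6.2 h7

/-- the states of the ties -/
lemma st_symm {κ : Type*} [Fintype κ] [DecidableEq κ] [Nonempty κ] (S : TSys κ)
    [DecidablePred fun e => S.c (S.idx e).1 = false] {T : Finset (ℤ × ℤ)} (hT : T ⊆ S.Ti) :
    S.st T = symmDiff T (S.Ti.filter fun e => S.c (S.idx e).1 = false) := by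
  ext e
  rw [TSys.mem_st, mem_symmDiff, mem_filter]
  by_cases he : e ∈ S.Ti
  · cases hc : S.c (S.idx e).1 <;> simp [he]
  · have : e ∉ T := fun h => he (hT h)
    simp [he, this]

end Pool.Agent.H76.Sp
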