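import Mathlib
import Pool.Agent.H76.Sp.Flip
import Pool.Agent.H76.R45.Expand2
import Pool.Agent.H69.Sp.RowT
import Pool.Agent.H74.Win.Pot

set_option autoImplicit false
open Finset

/-! # The exact expansion of the increments of a row of a window

`tA P` : the ties of the caps of `P`, `tF P` : those which are cut if they are closed, `kdw` : kind of a tie
(`0` row, `1` column to the south, `2` column to the north), `lw w = 1 - w (1 - w)` : weight of the cut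
state, `Cw` : the remaining random labels outside of the row, `P-` and `P+`. -/

namespace Pool.Agent.H76.Sp

open Pool.Agent.H75.Perc hiding AR VV
open Pool.Agent.H75.TwoArm hiding EF
open Pool.Agent.H99.NC
open Pool.Agent.Q1 Pool.Agent.H33.Q1 Pool.Agent.H69.Q1
open Pool.Agent.H81.G1 Pool.Agent.Q1.M6b.Gd Pool.Agent.H76.R45
open Pool.Agent.H30.Mid Pool.Agent.H30.Sp
open Pool.Agent.H13.R45 Pool.Agent.H13.Q1
open Pool.Agent.H46.Sp (Win Out)
open Pool.Agent.H46.Sp.Win (m_lt_M mem_EJ wal XJ)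
open Pool.Agent.H42.Sp
open Pool.Agent.H74.R45 (ve he exists_lt)
open Pool.Agent.H69.M6b (lbt)

variable {D : Win} {j x : ℤ} {N : ℕ} {P : Finset Ix} {a b c κ : ℂ}

/-- the ties -/
noncomputable def tA (P : Finset Ix) : Finset (ℤ × ℤ) := P.image fun k => lt (kt k)

/-- the ties which are cut if they are closed -/
noncomputable def tF (P : Finset Ix) : Finset (ℤ × ℤ) :=
  (P.filter fun k => ev k.2 = true).image fun k => lt (kt k)

/-- kind of a tie -/
noncomputable def kdw (D : Win) (j : ℤ) (e : ℤ × ℤ) : Fin 3 :=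
  if (tt e).1 = D.m (tt e).2 - 1 then (if (tt e).2 < D.yP then 1 else 2)
  else if (tt e).1 = D.M (tt e).2 then (if j ≤ (tt e).2 then 2 else 1) else 0

/-- weight of the cut state -/
noncomputable def lw (w : ℂ) : ℂ := 1 - w * (1 - w)

/-- the three weights of the line -/
noncomputable def w3 (a b c : ℂ) (k : Fin 3) : ℂ := if k = 0 then a else if k = 1 then b else c

lemma tF_sub : tF P ⊆ tA P := by
  intro e he
  unfold tF at he
  obtain ⟨k, hk, rfl⟩ := mem_image.1 he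
  exact mem_image_of_mem _ (mem_filter.1 hk).1

/-- the weight of the line at a cap -/
lemma wk_kdw (h0 : 0 ≤ j) (h1 : j ≤ D.h) {k : Ix} (hk : CP D j k) :
    wk D j a b c k = w3 a b c (kdw D j (lt (kt k))) := by
  obtain ⟨s, x, y⟩ := k
  cases s
  · have hd := L_data h0 h1 hk
    have hm : y - 1 < D.yP ↔ y < D.yP := by
      obtain ⟨-, hS, -⟩ := hk
      rcases hS with ⟨⟨-, b2, -⟩, ⟨-, b3, -⟩⟩ | ⟨⟨b2, -⟩, -⟩ <;> omega
    unfold wk kdw
    rcases kt_L (x := x) (y := y) with h | h <;> rw [h, tt_lt] <;> simp only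
    · rw [if_pos (show x = D.m y - 1 by omega)]
      split_ifs <;> simp [w3]
    · rw [if_pos (show x = D.m (y - 1) - 1 by omega)]
      simp only [hm]
      split_ifs <;> simp [w3]
  · have hd := R_data h0 h1 hk
    have hQ := D.Q0
    have hm : j ≤ y - 1 ↔ j ≤ y := by
      obtain ⟨-, hS, -⟩ := hk
      rcases hS with ⟨⟨a2, b2, -⟩, ⟨-, b3, -⟩⟩ | ⟨⟨b2, -⟩, ⟨b3, -⟩⟩ <;> omega
    have g1 := m_lt_M (D := D) (y := y) (by omega) (by omega)
    have g2 := m_lt_M (D := D) (y := y - 1) (by omega) (by omega)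
    unfold wk kdw
    rcases kt_R (x := x) (y := y) with h | h <;> rw [h, tt_lt] <;> simp only
    · rw [if_neg (show ¬ x - 1 = D.m y - 1 by omega), if_pos (show x - 1 = D.M y by omega)]
      split_ifs <;> simp [w3]
    · rw [if_neg (show ¬ x - 1 = D.m (y - 1) - 1 by omega),
        if_pos (show x - 1 = D.M (y - 1) by omega)]
      simp only [hm]
      split_ifs <;> simp [w3]
  · have hd := F_data hk
    unfold wk kdw
    rcases kt_F (x := x) (y := y) with h | h <;> rw [h, tt_lt] <;> simp only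
    · rw [if_neg (show ¬ x = D.m y - 1 by omega), if_neg (show ¬ x = D.M y by omega)]
      simp [w3]
    · rw [if_neg (show ¬ x - 1 = D.m y - 1 by omega), if_neg (show ¬ x - 1 = D.M y by omega)]
      simp [w3]
  · have hd := C_data hk
    unfold wk kdw
    rcases kt_C (x := x) (y := y) with h | h <;> rw [h, tt_lt] <;> simp only
    · rw [if_neg (show ¬ x = D.m (y - 1) - 1 by omega),
        if_neg (show ¬ x = D.M (y - 1) by omega)]
      simp [w3]
    · rw [if_neg (show ¬ x - 1 = D.m (y - 1) - 1 by omega),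
        if_neg (show ¬ x - 1 = D.M (y - 1) by omega)]
      simp [w3]

/-- weights of the ties which are cut if they are open -/
lemma q_tA (h0 : 0 ≤ j) (h1 : j ≤ D.h) (hP : ∀ k ∈ P, CP D j k) {e : ℤ × ℤ} (he : e ∈ tA P)
    (hn : e ∉ tF P) : qTp D j P a b c e = lw (w3 a b c (kdw D j e)) := by
  unfold tA at he
  obtain ⟨k, hk, rfl⟩ := mem_image.1 he
  rw [qTp_tie h0 h1 hP hk, wk_kdw h0 h1 (hP k hk)]
  unfold Pool.Agent.H42.Sp.tw lw
  have hev : ¬ ev k.2 = true := by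
    intro h
    refine hn ?_
    unfold tF
    exact mem_image.2 ⟨k, mem_filter.2 ⟨hk, h⟩, rfl⟩
  have hodd : (k.2.1 + k.2.2) % 2 = 1 := by
    by_contra h
    exact hev ((ev_true (x := k.2.1) (y := k.2.2)).2 (by omega))
  rw [if_pos hodd]

/-- weights of the ties which are cut if they are closed -/
lemma q_tF (h0 : 0 ≤ j) (h1 : j ≤ D.h) (hP : ∀ k ∈ P, CP D j k) {e : ℤ × ℤ} (he : e ∈ tF P) :
    qTp D j P a b c e = 1 - lw (w3 a b c (kdw D j e)) := by
  unfold tF at he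
  obtain ⟨k, hk, rfl⟩ := mem_image.1 he
  obtain ⟨hk, hev⟩ := mem_filter.1 hk
  rw [qTp_tie h0 h1 hP hk, wk_kdw h0 h1 (hP k hk)]
  unfold Pool.Agent.H42.Sp.tw lw
  have := (ev_true (x := k.2.1) (y := k.2.2)).1 hev
  rw [if_neg (by omega)]
  ring

/-- the remaining random labels outside of the row, `P-` and `P+` -/
noncomputable def Cw (D : Win) (j : ℤ) (N : ℕ) (P : Finset Ix) : Finset (ℤ × ℤ) :=
  ETp D j P \ (RS N (D.m (j - 1)) (j - 1) ∪ (tA P ∪ (BLw D j ∅ ∪ BUw D j ∅)))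

lemma Cw_q {e : ℤ × ℤ} (he : e ∈ Cw D j N P) : qTp D j P a b c e = D.qJ j a b c e := by
  refine qTp_other fun k hk h => ?_
  unfold Cw at he
  refine (mem_sdiff.1 he).2 (mem_union_right _ (mem_union_left _ ?_))
  unfold tA
  exact mem_image.2 ⟨k, hk, h⟩

section sets

variable (O : Out D) (h0 : 0 < j) (h1 : j < D.h) (hP : ∀ k ∈ P, CP D j k) (hr : ∀ k ∈ P, NRow j k)
  (hN : (N : ℤ) = D.M (j - 1) - D.m (j - 1))

lemma disj_C : Disjoint (Cw D j N P) (tA P ∪ (BLw D j ∅ ∪ BUw D j ∅)) := by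
  rw [disjoint_left]
  intro e he h
  exact (mem_sdiff.1 he).2 (mem_union_right _ h)

include O h0 h1 hP

lemma tA_sub : tA P ⊆ ETp D j P := by
  intro e he
  unfold tA at he
  obtain ⟨k, hk, rfl⟩ := mem_image.1 he
  unfold ETp
  rw [mem_sdiff, mem_image]
  refine ⟨(cap_CP O h0.le h1.le (hP k hk)).m1, ?_⟩
  rintro ⟨l, hl, h⟩
  have e1 := kt_odd k
  have e2 := rt_even l
  rw [lt_inj h] at e2
  omega

include hr

omit O in
lemma tA_reg {e : ℤ × ℤ} (he : e ∈ tA P) {x y : ℤ} (hxy : e = lt (x, y)) : ¬ Reg D j x y := by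
  unfold tA at he
  obtain ⟨k, hk, rfl⟩ := mem_image.1 he
  have h := cap_reg h0 h1 (hP k hk) (hr k hk) (t := kt k) (Or.inl rfl)
  rw [lt_inj hxy] at h
  exact h

include hN

omit O hP hr in
lemma rs_reg {x y : ℤ} (h : lt (x, y) ∈ RS N (D.m (j - 1)) (j - 1)) : Reg D j x y := by
  rw [← lbt_lt, mem_RS'] at h
  unfold Reg
  omega

omit O hP hr h0 h1 hN in
lemma bk_reg {x y : ℤ} (h : lt (x, y) ∈ BLw D j ∅ ∪ BUw D j ∅) : Reg D j x y := by
  rw [← lbt_lt, mem_union, mem_BLw, mem_BUw] at h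
  unfold Reg
  omega

omit O hN in
lemma disj_A : Disjoint (tA P) (BLw D j ∅ ∪ BUw D j ∅) := by
  rw [disjoint_left]
  intro e he h
  obtain ⟨x, y, rfl⟩ : ∃ x y, e = lt (x, y) := by
    unfold tA at he
    obtain ⟨k, -, rfl⟩ := mem_image.1 he
    exact ⟨_, _, rfl⟩
  exact tA_reg h0 h1 hP hr he rfl (bk_reg h)

/-- **The random labels outside of the row.** -/
lemma E_win : ETp D j P \ RS N (D.m (j - 1)) (j - 1) =
    Cw D j N P ∪ (tA P ∪ (BLw D j ∅ ∪ BUw D j ∅)) := by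
  have hw := wenv_XTp O h0 h1 hP hr
  have hBk : BLw D j ∅ ∪ BUw D j ∅ ⊆ ETp D j P := by
    intro e he
    have hodd : (e.1 + e.2) % 2 = 1 := by
      rcases mem_union.1 he with h | h
      · exact odd_BLw h
      · exact odd_BUw h
    obtain ⟨x, y, rfl⟩ := exists_lt hodd
    rw [← lbt_lt, mem_union, mem_BLw, mem_BUw] at he
    rcases he with h | h
    · exact hw.low x y h.1.1 h.1.2.1 h.1.2.2.2.1 h.1.2.2.2.2
    · exact hw.upp x y h.1.1 h.1.2.2.1 h.1.2.2.2.1 h.1.2.2.2.2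
  ext e
  unfold Cw
  rw [mem_sdiff, mem_union (s := _ \ _), mem_sdiff, mem_union (s := RS N _ _)]
  constructor
  · rintro ⟨g1, g2⟩
    by_cases g3 : e ∈ tA P ∪ (BLw D j ∅ ∪ BUw D j ∅)
    · exact Or.inr g3
    · exact Or.inl ⟨g1, fun h => h.elim g2 g3⟩
  · rintro (⟨g1, g2⟩ | g3)
    · exact ⟨g1, fun h => g2 (Or.inl h)⟩
    · rcases mem_union.1 g3 with g4 | g4
      · refine ⟨tA_sub O h0 h1 hP g4, fun h => ?_⟩
        obtain ⟨x, y, rfl⟩ := exists_lt (Win.odd_EJ (ETp_sub (tA_sub O h0 h1 hP g4)))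
        exact tA_reg h0 h1 hP hr g4 rfl (rs_reg (j := j) (D := D) h0 h1 hN h)
      · refine ⟨hBk g4, fun h => ?_⟩
        obtain ⟨x, y, rfl⟩ := exists_lt (Win.odd_EJ (ETp_sub (hBk g4)))
        rw [← lbt_lt] at h g4
        rw [mem_RS'] at h
        rw [mem_union, mem_BLw, mem_BUw] at g4
        omega

end sets

lemma zt_sum : (zt ^ (4 : ℤ) : ℂ) + zt ^ (-4 : ℤ) = 1 := by
  have h1 : (zt ^ (4 : ℤ) : ℂ) = w6 := by
    rw [w6_zt, ← zpow_natCast]
    norm_num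
  rw [h1, ← w6_zt', w6_inv]
  ring

/-- **The exact expansion of the increments of a row of a window.** -/
theorem incW_win (O : Out D) (h0 : 0 < j) (h1 : j < D.h) (hP : ∀ k ∈ P, CP D j k)
    (hr : ∀ k ∈ P, NRow j k) (hN : (N : ℤ) = D.M (j - 1) - D.m (j - 1))
    (ha : a = zt ^ (4 : ℤ) + κ) {st : Finset (ℤ × ℤ) → Finset (ℤ × ℤ)}
    (hst : ∀ T, T ⊆ tA P → st T = symmDiff T (tF P)) (y : Fin N × Dir) {M L : ℕ} (hM : N ≤ M)
    (hL : (tA P).card ≤ L) :
    (XTp O j h0.le h1.le P hP).incW (qTp D j P a b c) (rcr (D.m (j - 1)) (j - 1) y) =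
      ∑ m ∈ range (M + 1), ∑ l ∈ IL (Fin 3) (L + 1), ∑ s ∈ (Cw D j N P).powerset,
        κ ^ m * (∏ k, lw (w3 a b c k) ^ l k) * ((∏ e ∈ s, qTp D j P a b c e) *
          ∏ e ∈ Cw D j N P \ s, (1 - qTp D j P a b c e)) *
          HT (XTp O j h0.le h1.le P hP) (D.m (j - 1)) (j - 1) y (tA P) (kdw D j)
            (BLw D j ∅ ∪ BUw D j ∅) st m l s := by
  have hw := wenv_XTp O h0 h1 hP hr
  have hq := qrow_Tp a b c h0 h1 hP hr
  have hrow : HasRow (XTp O j h0.le h1.le P hP) N (D.m (j - 1)) (j - 1) := by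
    intro e he
    obtain ⟨i, rfl⟩ := mem_RS.1 he
    have hi := i.2
    exact hw.row _ (by omega) (by omega)
  refine incW_expandT (lam := fun k => lw (w3 a b c k)) hrow (fun i => ?_) (fun i => ?_)
    (E_win O h0 h1 hP hr hN) tF_sub hst disj_C (disj_A h0 h1 hP hr)
    (fun e he hn => q_tA h0.le h1.le hP he hn) (fun e he => q_tF h0.le h1.le hP he)
    (fun e he => hq.half he) y hM hL
  · rw [hq.wA hN, ha]
  · rw [hq.wB hN, ha]
    linear_combination -(zt_sum)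

/-- no cap of `P` at the ends of the tiles of the row -/
lemma row_cap (h0 : 0 < j) (h1 : j < D.h) (hP : ∀ k ∈ P, CP D j k) (hr : ∀ k ∈ P, NRow j k)
    (x0 : D.m (j - 1) ≤ x) (x1 : x ≤ D.M (j - 1)) {y : ℤ} (hy : y = j - 1 ∨ y = j) (s : Sd) :
    (s, (x, y)) ∉ P := by
  intro hk
  have hc := hP _ hk
  have hn := hr _ hk
  have hy1 : y ≠ D.h := by omega
  cases s
  · obtain ⟨-, hS, -⟩ := hc
    rcases hS with ⟨⟨b1, -⟩, ⟨b2, -⟩⟩ | ⟨⟨-, b1, -⟩, ⟨-, b2, -⟩⟩ <;> omega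
  · obtain ⟨-, hS, -⟩ := hc
    rcases hS with ⟨⟨-, b1, -⟩, ⟨-, b2, -⟩⟩ | ⟨⟨b1, -⟩, ⟨b2, -⟩⟩ <;> omega
  · have hne : y ≠ j - 1 := hn.1 rfl
    rcases hc with ⟨-, -, -, b1, -⟩ | ⟨-, -, -, b1, -⟩ | ⟨b1, -⟩
    · obtain rfl : y = j := by omega
      omega
    · obtain rfl : y = j := by omega
      omega
    · omega
  · have hne : y ≠ j := hn.2 rfl
    rcases hc with ⟨-, -, -, b1, -⟩ | ⟨-, -, -, b1, -⟩ | ⟨b1, -⟩
    · obtain rfl : y = j - 1 := by omega
      omega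
    · obtain rfl : y = j - 1 := by omega
      omega
    · omega

/-- **The exact expansion of the increments `FW` on the row.** -/
theorem FW_win (O : Out D) (h0 : 0 < j) (h1 : j < D.h) (hP : ∀ k ∈ P, CP D j k)
    (hr : ∀ k ∈ P, NRow j k) (hN : (N : ℤ) = D.M (j - 1) - D.m (j - 1))
    (ha : a = zt ^ (4 : ℤ) + κ) {st : Finset (ℤ × ℤ) → Finset (ℤ × ℤ)}
    (hst : ∀ T, T ⊆ tA P → st T = symmDiff T (tF P)) {y : Fin N × Dir}
    (x0 : D.m (j - 1) ≤ x) (x1 : x ≤ D.M (j - 1))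
    (hy : rcr (D.m (j - 1)) (j - 1) y = ve (x, j - 1)) {M L : ℕ} (hM : N ≤ M)
    (hL : (tA P).card ≤ L) :
    Pool.Agent.H74.Win.FW O a b c j (ve (x, j - 1)) =
      ∑ m ∈ range (M + 1), ∑ l ∈ IL (Fin 3) (L + 1), ∑ s ∈ (Cw D j N P).powerset,
        κ ^ m * (∏ k, lw (w3 a b c k) ^ l k) * ((∏ e ∈ s, qTp D j P a b c e) *
          ∏ e ∈ Cw D j N P \ s, (1 - qTp D j P a b c e)) *
          HT (XTp O j h0.le h1.le P hP) (D.m (j - 1)) (j - 1) y (tA P) (kdw D j)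
            (BLw D j ∅ ∪ BUw D j ∅) st m l s := by
  rw [Pool.Agent.H74.Win.FW_eq h0.le, ← XJ_tied_ve (h1 := h1.le) (hP := hP)
    (fun s => row_cap h0 h1 hP hr x0 x1 (Or.inl rfl) s)
    (fun s => row_cap h0 h1 hP hr x0 x1 (Or.inr (by ring)) s), ← hy]
  exact incW_win O h0 h1 hP hr hN ha hst y hM hL

end Pool.Agent.H76.Sp
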