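import Mathlib
import Pool.Agent.H76.Sp.WinX

set_option autoImplicit false
open Finset

/-! # The exact expansion of a row of a window, any set `A` of ties

As `WinX.lean`, but only the ties of `A ⊆ tA P` are expanded; the other random labels outside of the
row, `P-` and `P+` are in `CwA D j N P A`. -/

namespace Pool.Agent.H76.Sp

open Pool.Agent.H75.Perc hiding AR VV
open Pool.Agent.H75.TwoArm hiding EF
open Pool.Agent.H99.NC
open Pool.Agent.Q1 Pool.Agent.H33.Q1 Pool.Agent.H69.Q1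
open Pool.Agent.H81.G1 Pool.Agent.Q1.M6b.Gd Pool.Agent.H76.R45
open Pool.Agent.H30.Mid Pool.Agent.H30.Sp
open Pool.Agent.H13.R45 Pool.Agent.H13.Q1
open Pool.Agent.H46.Sp (Win Out)
open Pool.Agent.H46.Sp.Win (m_lt_M mem_EJ wal XJ)
open Pool.Agent.H42.Sp
open Pool.Agent.H74.R45 (ve he exists_lt)
open Pool.Agent.H69.M6b (lbt)

variable {D : Win} {j x : ℤ} {N : ℕ} {P : Finset Ix} {a b c κ : ℂ} {A : Finset (ℤ × ℤ)}

/-- the remaining random labels outside of the row, `P-`, `P+` and `A` -/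
noncomputable def CwA (D : Win) (j : ℤ) (N : ℕ) (P : Finset Ix) (A : Finset (ℤ × ℤ)) :
    Finset (ℤ × ℤ) :=
  ETp D j P \ (RS N (D.m (j - 1)) (j - 1) ∪ (A ∪ (BLw D j ∅ ∪ BUw D j ∅)))

lemma disj_CA : Disjoint (CwA D j N P A) (A ∪ (BLw D j ∅ ∪ BUw D j ∅)) := by
  rw [disjoint_left]
  intro e he h
  exact (mem_sdiff.1 he).2 (mem_union_right _ h)

/-- **The random labels outside of the row.** -/
lemma E_winA (O : Out D) (h0 : 0 < j) (h1 : j < D.h) (hP : ∀ k ∈ P, CP D j k)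
    (hr : ∀ k ∈ P, NRow j k) (hN : (N : ℤ) = D.M (j - 1) - D.m (j - 1)) (hA : A ⊆ tA P) :
    ETp D j P \ RS N (D.m (j - 1)) (j - 1) =
      CwA D j N P A ∪ (A ∪ (BLw D j ∅ ∪ BUw D j ∅)) := by
  have hw := wenv_XTp O h0 h1 hP hr
  have hBk : BLw D j ∅ ∪ BUw D j ∅ ⊆ ETp D j P := by
    intro e he
    have hodd : (e.1 + e.2) % 2 = 1 := by
      rcases mem_union.1 he with h | h
      · exact odd_BLw h
      · exact odd_BUw h
    obtain ⟨x, y, rfl⟩ := exists_lt hodd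
    rw [← lbt_lt, mem_union, mem_BLw, mem_BUw] at he
    rcases he with h | h
    · exact hw.low x y h.1.1 h.1.2.1 h.1.2.2.2.1 h.1.2.2.2.2
    · exact hw.upp x y h.1.1 h.1.2.2.1 h.1.2.2.2.1 h.1.2.2.2.2
  ext e
  unfold CwA
  rw [mem_sdiff, mem_union (s := _ \ _), mem_sdiff, mem_union (s := RS N _ _)]
  constructor
  · rintro ⟨g1, g2⟩
    by_cases g3 : e ∈ A ∪ (BLw D j ∅ ∪ BUw D j ∅)
    · exact Or.inr g3
    · exact Or.inl ⟨g1, fun h => h.elim g2 g3⟩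
  · rintro (⟨g1, g2⟩ | g3)
    · exact ⟨g1, fun h => g2 (Or.inl h)⟩
    · rcases mem_union.1 g3 with g4 | g4
      · refine ⟨tA_sub O h0 h1 hP (hA g4), fun h => ?_⟩
        obtain ⟨x, y, rfl⟩ := exists_lt (Win.odd_EJ (ETp_sub (tA_sub O h0 h1 hP (hA g4))))
        exact tA_reg h0 h1 hP hr (hA g4) rfl (rs_reg (j := j) (D := D) h0 h1 hN h)
      · refine ⟨hBk g4, fun h => ?_⟩
        obtain ⟨x, y, rfl⟩ := exists_lt (Win.odd_EJ (ETp_sub (hBk g4)))
        rw [← lbt_lt] at h g4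
        rw [mem_RS'] at h
        rw [mem_union, mem_BLw, mem_BUw] at g4
        omega

/-- **The exact expansion of the increments of a row of a window**, any set `A` of ties. -/
theorem incW_winA (O : Out D) (h0 : 0 < j) (h1 : j < D.h) (hP : ∀ k ∈ P, CP D j k)
    (hr : ∀ k ∈ P, NRow j k) (hN : (N : ℤ) = D.M (j - 1) - D.m (j - 1)) (hA : A ⊆ tA P)
    (ha : a = zt ^ (4 : ℤ) + κ) {st : Finset (ℤ × ℤ) → Finset (ℤ × ℤ)}
    (hst : ∀ T, T ⊆ A → st T = symmDiff T (A ∩ tF P)) (y : Fin N × Dir) {M L : ℕ} (hM : N ≤ M)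
    (hL : A.card ≤ L) :
    (XTp O j h0.le h1.le P hP).incW (qTp D j P a b c) (rcr (D.m (j - 1)) (j - 1) y) =
      ∑ m ∈ range (M + 1), ∑ l ∈ IL (Fin 3) (L + 1), ∑ s ∈ (CwA D j N P A).powerset,
        κ ^ m * (∏ k, lw (w3 a b c k) ^ l k) * ((∏ e ∈ s, qTp D j P a b c e) *
          ∏ e ∈ CwA D j N P A \ s, (1 - qTp D j P a b c e)) *
          HT (XTp O j h0.le h1.le P hP) (D.m (j - 1)) (j - 1) y A (kdw D j)
            (BLw D j ∅ ∪ BUw D j ∅) st m l s := by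
  have hw := wenv_XTp O h0 h1 hP hr
  have hq := qrow_Tp a b c h0 h1 hP hr
  have hrow : HasRow (XTp O j h0.le h1.le P hP) N (D.m (j - 1)) (j - 1) := by
    intro e he
    obtain ⟨i, rfl⟩ := mem_RS.1 he
    have hi := i.2
    exact hw.row _ (by omega) (by omega)
  have hdA : Disjoint A (BLw D j ∅ ∪ BUw D j ∅) :=
    disjoint_of_subset_left hA (disj_A h0 h1 hP hr)
  refine incW_expandT (lam := fun k => lw (w3 a b c k)) (Fr := A ∩ tF P) hrow (fun i => ?_)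
    (fun i => ?_) (E_winA O h0 h1 hP hr hN hA) inter_subset_left hst disj_CA hdA
    (fun e he hn => q_tA h0.le h1.le hP (hA he) (fun h => hn (mem_inter.2 ⟨he, h⟩)))
    (fun e he => q_tF h0.le h1.le hP (mem_inter.1 he).2)
    (fun e he => hq.half he) y hM hL
  · rw [hq.wA hN, ha]
  · rw [hq.wB hN, ha]
    linear_combination -(zt_sum)

/-- **The exact expansion of the increments `FW` on the row**, any set `A` of ties. -/
theorem FW_winA (O : Out D) (h0 : 0 < j) (h1 : j < D.h) (hP : ∀ k ∈ P, CP D j k)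
    (hr : ∀ k ∈ P, NRow j k) (hN : (N : ℤ) = D.M (j - 1) - D.m (j - 1)) (hA : A ⊆ tA P)
    (ha : a = zt ^ (4 : ℤ) + κ) {st : Finset (ℤ × ℤ) → Finset (ℤ × ℤ)}
    (hst : ∀ T, T ⊆ A → st T = symmDiff T (A ∩ tF P)) {y : Fin N × Dir}
    (x0 : D.m (j - 1) ≤ x) (x1 : x ≤ D.M (j - 1))
    (hy : rcr (D.m (j - 1)) (j - 1) y = ve (x, j - 1)) {M L : ℕ} (hM : N ≤ M)
    (hL : A.card ≤ L) :
    Pool.Agent.H74.Win.FW O a b c j (ve (x, j - 1)) =
      ∑ m ∈ range (M + 1), ∑ l ∈ IL (Fin 3) (L + 1), ∑ s ∈ (CwA D j N P A).powerset,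
        κ ^ m * (∏ k, lw (w3 a b c k) ^ l k) * ((∏ e ∈ s, qTp D j P a b c e) *
          ∏ e ∈ CwA D j N P A \ s, (1 - qTp D j P a b c e)) *
          HT (XTp O j h0.le h1.le P hP) (D.m (j - 1)) (j - 1) y A (kdw D j)
            (BLw D j ∅ ∪ BUw D j ∅) st m l s := by
  rw [Pool.Agent.H74.Win.FW_eq h0.le, ← XJ_tied_ve (h1 := h1.le) (hP := hP)
    (fun s => row_cap h0 h1 hP hr x0 x1 (Or.inl rfl) s)
    (fun s => row_cap h0 h1 hP hr x0 x1 (Or.inr (by ring)) s), ← hy]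
  exact incW_winA O h0 h1 hP hr hN hA ha hst y hM hL

end Pool.Agent.H76.Sp
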